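import Pool.Agent.helper18.HG.Spec

/-!
# MP_33a656_nt, row hg:DEL

`0 < 1 - dens k s ≤ s^(1-k)`.
-/

set_option autoImplicit false

namespace Pool.Agent.helper18.HG

open Finset

theorem DEL (hRKB : RKB_stmt) (hSER : SER_stmt) : DEL_stmt := by
  intro k s hk hs
  obtain ⟨hw01, hdens⟩ := hSER k s hk hs
  obtain ⟨-, -, -, hlt, hkk⟩ := hRKB k (by omega)
  have hs' : (2 : ℝ) ≤ s := by exact_mod_cast hs
  have hs0 : (0 : ℝ) < s := by linarith
  obtain ⟨r, hr⟩ : ∃ r : ℝ, r = (s : ℝ)⁻¹ := ⟨_, rfl⟩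
  have hr0 : 0 < r := by rw [hr]; positivity
  have hsr : (s : ℝ) * r = 1 := by rw [hr]; exact mul_inv_cancel₀ hs0.ne'
  have hr1 : r < 1 := by
    rw [hr]
    exact inv_lt_one_of_one_lt₀ (by linarith)
  have hgeo : HasSum (fun n : ℕ => r ^ n) (1 - r)⁻¹ := hasSum_geometric_of_lt_one hr0.le hr1
  have hpow : ∀ n : ℕ, ((s : ℝ) ^ n)⁻¹ = r ^ n := by
    intro n
    rw [hr, inv_pow]
  have hdens' : dens k s = ((s : ℝ) - 1) * ∑' n : ℕ, (w k n : ℝ) * r ^ (n + 1) := by
    rw [hdens]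
    simp only [hpow]
  -- summability
  have hS1 : Summable (fun n : ℕ => r ^ (n + 1)) := by
    have := hgeo.summable.mul_left r
    refine this.congr fun n => ?_
    rw [pow_succ]
    ring
  have hsum1 : ∑' n : ℕ, r ^ (n + 1) = r * (1 - r)⁻¹ := by
    have := (hgeo.mul_left r).tsum_eq
    rw [← this]
    refine tsum_congr fun n => ?_
    rw [pow_succ]
    ring
  have hwR : ∀ n, (w k n : ℝ) = 0 ∨ (w k n : ℝ) = 1 := by
    intro n
    rcases hw01 n with h | h <;> rw [h] <;> simp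
  have hS2 : Summable (fun n : ℕ => (w k n : ℝ) * r ^ (n + 1)) := by
    refine Summable.of_nonneg_of_le (fun n => ?_) (fun n => ?_) hS1
    · have hp : 0 < r ^ (n + 1) := pow_pos hr0 _
      rcases hwR n with h | h <;> rw [h] <;> simp [hp.le]
    · have hp : 0 < r ^ (n + 1) := pow_pos hr0 _
      rcases hwR n with h | h <;> rw [h] <;> simp [hp.le]
  have hS3 : Summable (fun n : ℕ => (1 - (w k n : ℝ)) * r ^ (n + 1)) := by
    refine (hS1.sub hS2).congr fun n => ?_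
    ring
  have h1 : ((s : ℝ) - 1) * ∑' n : ℕ, r ^ (n + 1) = 1 := by
    rw [hsum1]
    have h1r : (1 - r) ≠ 0 := by linarith
    have : ((s : ℝ) - 1) * r = 1 - r := by linear_combination hsr
    rw [← mul_assoc, this]
    exact mul_inv_cancel₀ h1r
  have hmain : 1 - dens k s = ((s : ℝ) - 1) * ∑' n : ℕ, (1 - (w k n : ℝ)) * r ^ (n + 1) := by
    have e1 : ∑' n : ℕ, (1 - (w k n : ℝ)) * r ^ (n + 1) =
        ∑' n : ℕ, r ^ (n + 1) - ∑' n : ℕ, (w k n : ℝ) * r ^ (n + 1) := by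
      rw [← hS1.tsum_sub hS2]
      refine tsum_congr fun n => ?_
      ring
    rw [e1, hdens', mul_sub, h1]
  have hnn : ∀ n, 0 ≤ (1 - (w k n : ℝ)) * r ^ (n + 1) := by
    intro n
    have hp : 0 < r ^ (n + 1) := pow_pos hr0 _
    rcases hwR n with h | h <;> rw [h] <;> simp [hp.le]
  have hle : ∀ n, (1 - (w k n : ℝ)) * r ^ (n + 1) ≤ r ^ (n + 1) := by
    intro n
    have hp : 0 < r ^ (n + 1) := pow_pos hr0 _
    rcases hwR n with h | h <;> rw [h] <;> simp [hp.le]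
  -- the first values of w
  have hw1 : ∀ n, n < k - 1 → w k n = 1 := by
    intro n hn
    unfold w
    rw [hlt n (by omega), hlt (n + 1) (by omega)]
    push_cast
    ring
  have hw0 : w k (k - 1) = 0 := by
    unfold w
    have e : k - 1 + 1 = k := by omega
    rw [e, hkk, hlt (k - 1) (by omega)]
    ring
  have hs1 : 0 < (s : ℝ) - 1 := by linarith
  refine ⟨?_, ?_⟩
  · rw [hmain]
    refine mul_pos hs1 ?_
    refine hS3.tsum_pos hnn (k - 1) ?_
    rw [hw0]
    simp only [Int.cast_zero, sub_zero, one_mul]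
    exact pow_pos hr0 _
  · have hsplit := hS3.sum_add_tsum_nat_add (k - 1)
    have hz : ∑ i ∈ range (k - 1), (1 - (w k i : ℝ)) * r ^ (i + 1) = 0 := by
      refine Finset.sum_eq_zero fun i hi => ?_
      rw [hw1 i (Finset.mem_range.mp hi)]
      simp
    rw [hz, zero_add] at hsplit
    have hT : ∑' n : ℕ, (1 - (w k (n + (k - 1)) : ℝ)) * r ^ (n + (k - 1) + 1) ≤
        ∑' n : ℕ, r ^ (n + (k - 1) + 1) := by
      refine Summable.tsum_le_tsum (fun n => hle (n + (k - 1))) ?_ ?_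
      · exact (summable_nat_add_iff (f := fun n : ℕ => (1 - (w k n : ℝ)) * r ^ (n + 1)) (k - 1)).mpr hS3
      · exact (summable_nat_add_iff (f := fun n : ℕ => r ^ (n + 1)) (k - 1)).mpr hS1
    have hG : ∑' n : ℕ, r ^ (n + (k - 1) + 1) = r ^ (k - 1) * ∑' n : ℕ, r ^ (n + 1) := by
      rw [← tsum_mul_left]
      refine tsum_congr fun n => ?_
      rw [← pow_add]
      congr 1
      omega
    have hB : 1 - dens k s ≤ r ^ (k - 1) := by
      rw [hmain, ← hsplit]
      calc ((s : ℝ) - 1) * ∑' n : ℕ, (1 - (w k (n + (k - 1)) : ℝ)) * r ^ (n + (k - 1) + 1)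
          ≤ ((s : ℝ) - 1) * ∑' n : ℕ, r ^ (n + (k - 1) + 1) :=
            mul_le_mul_of_nonneg_left hT hs1.le
        _ = r ^ (k - 1) * (((s : ℝ) - 1) * ∑' n : ℕ, r ^ (n + 1)) := by rw [hG]; ring
        _ = r ^ (k - 1) := by rw [h1, mul_one]
    calc (1 - dens k s) * (s : ℝ) ^ (k - 1) ≤ r ^ (k - 1) * (s : ℝ) ^ (k - 1) :=
          mul_le_mul_of_nonneg_right hB (by positivity)
      _ = 1 := by rw [← mul_pow, mul_comm r, hsr, one_pow]

end Pool.Agent.helper18.HG
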